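import Pool.Agent.Helper96.Kod.Goals

/-! Packet K2 of MP_5ff3c6_ag. -/

namespace Pool.Agent.Helper50.Kod

open Pool.Agent.Helper96.Kod

theorem stmtK2 : StmtK2 := by
  intro N W z hW h0 h
  have hlin : ∀ w : Fin N → ℂ, Continuous (fun u : Fin N → ℂ => ∑ i, u i * w i) := fun w =>
    continuous_finsetSum _ fun i _ => (continuous_apply i).mul continuous_const
  have hO : ∀ w ∈ W, IsOpen {u : Fin N → ℂ | ∑ i, u i * w i ≠ 0} := fun w _ =>
    isOpen_ne_fun (hlin w) continuous_const
  have hD : ∀ w ∈ W, Dense {u : Fin N → ℂ | ∑ i, u i * w i ≠ 0} := by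
    intro w hw
    have hw0 : w ≠ 0 := fun h => h0 (h ▸ hw)
    let S : Submodule ℂ (Fin N → ℂ) :=
      { carrier := {u | ∑ i, u i * w i = 0}
        zero_mem' := by simp
        add_mem' := by
          intro a b ha hb
          show ∑ i, (a i + b i) * w i = 0
          have ha' : ∑ i, a i * w i = 0 := ha
          have hb' : ∑ i, b i * w i = 0 := hb
          simp only [add_mul, Finset.sum_add_distrib, ha', hb', add_zero]
        smul_mem' := by
          intro c a ha
          show ∑ i, (c * a i) * w i = 0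
          have ha' : ∑ i, a i * w i = 0 := ha
          simp only [mul_assoc, ← Finset.mul_sum, ha', mul_zero] }
    have hS : S ≠ ⊤ := by
      intro hS
      apply hw0
      funext i
      have h1 : (Pi.single i 1 : Fin N → ℂ) ∈ S := by rw [hS]; trivial
      have h2 : ∑ j, (Pi.single i 1 : Fin N → ℂ) j * w j = 0 := h1
      rw [Finset.sum_eq_single i] at h2
      · simpa using h2
      · intro j _ hj
        simp [hj]
      · intro h
        exact absurd (Finset.mem_univ _) h
    have h3 : {u : Fin N → ℂ | ∑ i, u i * w i ≠ 0} = ((S : Set (Fin N → ℂ)))ᶜ := rfl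
    rw [h3, ← interior_eq_empty_iff_dense_compl]
    by_contra h4
    exact hS (Submodule.eq_top_of_nonempty_interior' S (Set.nonempty_iff_ne_empty.2 h4))
  have hB := dense_biInter_of_isOpen hO hW hD
  have hC : IsClosed {u : Fin N → ℂ | ∑ i, u i * z i = 0} :=
    isClosed_eq (hlin z) continuous_const
  have hsub : (⋂ w ∈ W, {u : Fin N → ℂ | ∑ i, u i * w i ≠ 0}) ⊆
      {u : Fin N → ℂ | ∑ i, u i * z i = 0} := by
    intro u hu
    rw [Set.mem_iInter₂] at hu
    exact h u fun w hw => hu w hw
  have huniv : ∀ u : Fin N → ℂ, ∑ i, u i * z i = 0 := by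
    intro u
    have h1 : closure (⋂ w ∈ W, {u : Fin N → ℂ | ∑ i, u i * w i ≠ 0}) ⊆
        {u : Fin N → ℂ | ∑ i, u i * z i = 0} := closure_minimal hsub hC
    rw [hB.closure_eq] at h1
    exact h1 (Set.mem_univ u)
  funext i
  have h2 := huniv (Pi.single i 1)
  rw [Finset.sum_eq_single i] at h2
  · simpa using h2
  · intro j _ hj
    simp [hj]
  · intro h
    exact absurd (Finset.mem_univ _) h

end Pool.Agent.Helper50.Kod
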